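import Pool.Agent.helper37.BG.LSM
import Pool.Agent.helper81.BG.LSC

/-!
# The slope inequality (module LSD)
-/

namespace Pool.Agent.helper97.BG

open Polynomial Filter Module

set_option linter.unusedSectionVars false

variable {k K V : Type*} [Field k] [Field K] [Algebra k K] [AddCommGroup V] [Module K V]
  [Module k V] [IsScalarTower k K V]

namespace LSD

open LSM

/-! ### counting over lists -/

section lists

variable {Q : Type*}

open Classical in
theorem sum_map_eq (g : Q → ℕ) (F : Finset Q) (l : List (Q × ℕ)) (hF : ∀ qc ∈ l, qc.1 ∈ F) :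
    (l.map fun qc => g qc.1).sum = ∑ q ∈ F, (l.countP fun qc => decide (qc.1 = q)) * g q := by
  induction l with
  | nil => simp
  | cons a l ih =>
    rw [List.map_cons, List.sum_cons, ih fun qc h => hF qc (List.mem_cons_of_mem _ h)]
    have : ∀ q ∈ F, ((a :: l).countP fun qc => decide (qc.1 = q)) * g q =
        (if q = a.1 then g q else 0) + (l.countP fun qc => decide (qc.1 = q)) * g q := by
      intro q _
      rw [List.countP_cons]
      by_cases h : a.1 = q
      · simp [h]; ring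
      · simp [h, Ne.symm h]
    rw [Finset.sum_congr rfl this, Finset.sum_add_distrib, Finset.sum_ite_eq']
    rw [if_pos (hF a List.mem_cons_self)]

open Classical in
/-- comparison of three lists through multiplicities -/
theorem sum_le_of_count (g : Q → ℕ) (l1 l2 l3 : List (Q × ℕ))
    (h : ∀ q, g q ≠ 0 → 2 * (l1.countP fun qc => decide (qc.1 = q)) +
      (l3.countP fun qc => decide (qc.1 = q)) ≤ (l2.countP fun qc => decide (qc.1 = q))) :
    2 * (l1.map fun qc => g qc.1).sum + (l3.map fun qc => g qc.1).sum ≤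
      (l2.map fun qc => g qc.1).sum := by
  set F : Finset Q := ((l1 ++ l2 ++ l3).map Prod.fst).toFinset with hF
  have hmem : ∀ qc ∈ l1 ++ l2 ++ l3, qc.1 ∈ F := by
    intro qc hqc
    rw [hF, List.mem_toFinset]
    exact List.mem_map_of_mem hqc
  rw [sum_map_eq g F l1 (fun qc hqc => hmem qc (by simp [hqc])),
    sum_map_eq g F l2 (fun qc hqc => hmem qc (by simp [hqc])),
    sum_map_eq g F l3 (fun qc hqc => hmem qc (by simp [hqc])), Finset.mul_sum,
    ← Finset.sum_add_distrib]
  refine Finset.sum_le_sum fun q _ => ?_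
  by_cases hg : g q = 0
  · simp [hg]
  · have := Nat.mul_le_mul_right (g q) (h q hg)
    calc _ = (2 * (l1.countP fun qc => decide (qc.1 = q)) +
      (l3.countP fun qc => decide (qc.1 = q))) * g q := by ring
      _ ≤ _ := this

/-- upper bound of the shifted sum -/
theorem sum_shift_le (h : Q → ℕ → ℕ) (g : Q → ℕ → ℕ) (l : List (Q × ℕ))
    (hl : ∀ qc ∈ l, ∃ C, ∀ m, (if qc.2 ≤ m then h qc.1 (m - qc.2) else 0) ≤ g qc.1 m + C) :
    ∃ C, ∀ m, (l.map fun qc => if qc.2 ≤ m then h qc.1 (m - qc.2) else 0).sum ≤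
      (l.map fun qc => g qc.1 m).sum + C := by
  induction l with
  | nil => exact ⟨0, fun m => by simp⟩
  | cons a l ih =>
    obtain ⟨C, hC⟩ := ih fun qc hqc => hl qc (List.mem_cons_of_mem _ hqc)
    obtain ⟨C', hC'⟩ := hl a List.mem_cons_self
    refine ⟨C + C', fun m => ?_⟩
    rw [List.map_cons, List.map_cons, List.sum_cons, List.sum_cons]
    have := hC m
    have := hC' m
    omega

/-- lower bound of the shifted sum -/
theorem le_sum_shift (h : Q → ℕ → ℕ) (g : Q → ℕ → ℕ) (l : List (Q × ℕ))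
    (hl : ∀ qc ∈ l, ∃ C, ∀ m, g qc.1 m ≤ (if qc.2 ≤ m then h qc.1 (m - qc.2) else 0) + C) :
    ∃ C, ∀ m, (l.map fun qc => g qc.1 m).sum ≤
      (l.map fun qc => if qc.2 ≤ m then h qc.1 (m - qc.2) else 0).sum + C := by
  induction l with
  | nil => exact ⟨0, fun m => by simp⟩
  | cons a l ih =>
    obtain ⟨C, hC⟩ := ih fun qc hqc => hl qc (List.mem_cons_of_mem _ hqc)
    obtain ⟨C', hC'⟩ := hl a List.mem_cons_self
    refine ⟨C + C', fun m => ?_⟩
    rw [List.map_cons, List.map_cons, List.sum_cons, List.sum_cons]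
    have := hC m
    have := hC' m
    omega

end lists

/-! ### growth functions -/

theorem growth_mono {f : ℕ → ℕ} {C : ℕ} (h : ∀ m, f m ≤ f (m + 1) ∧ f (m + 1) ≤ f m + C)
    (m c : ℕ) : f m ≤ f (m + c) ∧ f (m + c) ≤ f m + c * C := by
  induction c with
  | zero => simp
  | succ c ih =>
    have := h (m + c)
    rw [← add_assoc, add_mul, one_mul]
    omega

theorem growth_shift {f : ℕ → ℕ} {C : ℕ} (h : ∀ m, f m ≤ f (m + 1) ∧ f (m + 1) ≤ f m + C)
    (c : ℕ) : (∀ m, (if c ≤ m then f (m - c) else 0) ≤ f m) ∧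
      ∃ C', ∀ m, f m ≤ (if c ≤ m then f (m - c) else 0) + C' := by
  constructor
  · intro m
    split_ifs with hm
    · obtain ⟨m', rfl⟩ := Nat.exists_eq_add_of_le' hm
      rw [Nat.add_sub_cancel]
      exact (growth_mono h m' c).1
    · exact Nat.zero_le _
  · refine ⟨f 0 + c * C, fun m => ?_⟩
    split_ifs with hm
    · obtain ⟨m', rfl⟩ := Nat.exists_eq_add_of_le' hm
      rw [Nat.add_sub_cancel]
      have := (growth_mono h m' c).2
      omega
    · have := (growth_mono h 0 m).2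
      rw [zero_add] at this
      have : m * C ≤ c * C := Nat.mul_le_mul_right _ (by omega)
      omega

/-! ### fractions -/

theorem pow_mono_of_one {W : Submodule k K} (h1 : (1 : K) ∈ W) {m n : ℕ} (h : m ≤ n) :
    W ^ m ≤ W ^ n := by
  obtain ⟨c, rfl⟩ := Nat.exists_eq_add_of_le h
  intro x hx
  rw [pow_add]
  have := Submodule.mul_mem_mul hx (Submodule.pow_mem_pow W h1 c)
  rwa [one_pow, mul_one] at this

theorem exists_frac {W : Submodule k K} (h1 : (1 : K) ∈ W)
    (hgen : IntermediateField.adjoin k (W : Set K) = ⊤) (b : K) :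
    ∃ n : ℕ, ∃ α ∈ W ^ n, ∃ t ∈ W ^ n, t ≠ 0 ∧ t * b = α := by
  have hb : b ∈ IntermediateField.adjoin k (W : Set K) := by rw [hgen]; trivial
  induction hb using IntermediateField.adjoin_induction with
  | mem x hx => exact ⟨1, x, by simpa using hx, 1, by simpa using h1, one_ne_zero, by simp⟩
  | algebraMap r =>
    exact ⟨0, algebraMap k K r, by rw [pow_zero]; exact Submodule.algebraMap_mem r, 1,
      by simp, one_ne_zero, by simp⟩
  | add x y _ _ hx hy =>
    obtain ⟨n, α, hα, t, ht, ht0, he⟩ := hx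
    obtain ⟨n', α', hα', t', ht', ht0', he'⟩ := hy
    refine ⟨n + n', α * t' + t * α', ?_, t * t', ?_, mul_ne_zero ht0 ht0', ?_⟩
    · rw [pow_add]
      exact add_mem (Submodule.mul_mem_mul hα ht') (Submodule.mul_mem_mul ht hα')
    · rw [pow_add]; exact Submodule.mul_mem_mul ht ht'
    · rw [← he, ← he']; ring
  | inv x _ hx =>
    obtain ⟨n, α, hα, t, ht, ht0, he⟩ := hx
    by_cases hx0 : x = 0
    · refine ⟨0, 0, zero_mem _, 1, by simp, one_ne_zero, by simp [hx0]⟩
    · refine ⟨n, t, ht, α, hα, ?_, ?_⟩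
      · rw [← he]; exact mul_ne_zero ht0 hx0
      · rw [← he, mul_assoc, mul_inv_cancel₀ hx0, mul_one]
  | mul x y _ _ hx hy =>
    obtain ⟨n, α, hα, t, ht, ht0, he⟩ := hx
    obtain ⟨n', α', hα', t', ht', ht0', he'⟩ := hy
    refine ⟨n + n', α * α', ?_, t * t', ?_, mul_ne_zero ht0 ht0', ?_⟩
    · rw [pow_add]; exact Submodule.mul_mem_mul hα hα'
    · rw [pow_add]; exact Submodule.mul_mem_mul ht ht'
    · rw [← he, ← he']; ring

/-! ### free families -/

/-- `⨁ W ^ (m - a i)` as a family of subspaces of `K`. -/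
def shf (W : Submodule k K) (a m : ℕ) : Submodule k K := if a ≤ m then W ^ (m - a) else ⊥

theorem shf_fin {W : Submodule k K} [Module.Finite k W] (a m : ℕ) :
    Module.Finite k (shf W a m) := by
  unfold shf
  by_cases h : a ≤ m
  · rw [if_pos h]
    exact Module.Finite.iff_fg.2 ((Module.Finite.iff_fg.1 inferInstance).pow _)
  · rw [if_neg h]
    infer_instance

/-- the map `(f i) ↦ ∑ f i • n i` -/
def freeMap (W : Submodule k K) {s : ℕ} (n : Fin s → V) (a : Fin s → ℕ) (m : ℕ) :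
    (∀ i, ↥(shf W (a i) m)) →ₗ[k] V where
  toFun f := ∑ i, (f i : K) • n i
  map_add' f g := by
    simp only [Pi.add_apply, Submodule.coe_add, add_smul, Finset.sum_add_distrib]
  map_smul' r f := by
    simp only [Pi.smul_apply, Submodule.coe_smul, RingHom.id_apply, Finset.smul_sum, smul_assoc]

/-- the family generated by the independent elements `n i` in degree `a i` -/
def free (W : Submodule k K) {s : ℕ} (n : Fin s → V) (a : Fin s → ℕ) (m : ℕ) :
    Submodule k V := LinearMap.range (freeMap W n a m)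

theorem mem_free {W : Submodule k K} {s : ℕ} {n : Fin s → V} {a : Fin s → ℕ} {m : ℕ} {v : V} :
    v ∈ free W n a m ↔ ∃ f : Fin s → K, (∀ i, f i ∈ shf W (a i) m) ∧ v = ∑ i, f i • n i := by
  constructor
  · rintro ⟨f, rfl⟩
    exact ⟨fun i => f i, fun i => (f i).2, rfl⟩
  · rintro ⟨f, hf, rfl⟩
    exact ⟨fun i => ⟨f i, hf i⟩, rfl⟩

theorem freeMap_injective {W : Submodule k K} {s : ℕ} {n : Fin s → V}
    (hn : LinearIndependent K n) (a : Fin s → ℕ) (m : ℕ) :
    Function.Injective (freeMap W n a m) := by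
  intro f g h
  have : ∑ i, ((f i : K) - g i) • n i = 0 := by
    simp only [sub_smul, Finset.sum_sub_distrib]
    exact sub_eq_zero.2 h
  have h2 := Fintype.linearIndependent_iff.1 hn _ this
  funext i
  exact Subtype.ext (sub_eq_zero.1 (h2 i))

theorem free_fin {W : Submodule k K} [Module.Finite k W] {s : ℕ} (n : Fin s → V)
    (a : Fin s → ℕ) (m : ℕ) : Module.Finite k (free W n a m) := by
  have : ∀ i, Module.Finite k ↥(shf W (a i) m) := fun i => shf_fin (a i) m
  unfold free
  infer_instance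

theorem finrank_free {W : Submodule k K} [Module.Finite k W] {s : ℕ} {n : Fin s → V}
    (hn : LinearIndependent K n) (a : Fin s → ℕ) (m : ℕ) :
    finrank k (free W n a m) = ∑ i, finrank k (shf W (a i) m) := by
  have : ∀ i, Module.Finite k ↥(shf W (a i) m) := fun i => shf_fin (a i) m
  unfold free
  rw [LinearMap.finrank_range_of_inj (freeMap_injective hn a m)]
  exact Module.finrank_pi_fintype k

theorem mul_mem_shf {W : Submodule k K} {a m c : ℕ} {f g : K} (hf : f ∈ W ^ c)
    (hg : g ∈ shf W a m) : f * g ∈ shf W a (m + c) := by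
  unfold shf at hg ⊢
  split_ifs at hg with h
  · rw [if_pos (by omega)]
    have e : m + c - a = c + (m - a) := by omega
    rw [e, pow_add]
    exact Submodule.mul_mem_mul hf hg
  · rw [Submodule.mem_bot] at hg
    rw [hg, mul_zero]
    exact zero_mem _

theorem free_fam {W : Submodule k K} {s : ℕ} (n : Fin s → V) (a : Fin s → ℕ) :
    Fam W (free W n a) := by
  intro m f hf v hv
  obtain ⟨g, hg, rfl⟩ := mem_free.1 hv
  refine mem_free.2 ⟨fun i => f * g i, fun i => ?_, ?_⟩
  · have hf' : f ∈ W ^ 1 := by rwa [pow_one]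
    exact mul_mem_shf hf' (hg i)
  · rw [Finset.smul_sum]
    exact Finset.sum_congr rfl fun i _ => smul_smul _ _ _

theorem free_le {W : Submodule k K} {N : ℕ → Submodule k V} (hN : Fam W N) {s : ℕ}
    {n : Fin s → V} {a : Fin s → ℕ} (hn : ∀ i, n i ∈ N (a i)) (m : ℕ) : free W n a m ≤ N m := by
  intro v hv
  obtain ⟨g, hg, rfl⟩ := mem_free.1 hv
  refine Submodule.sum_mem _ fun i _ => ?_
  have hgi := hg i
  unfold shf at hgi
  split_ifs at hgi with h
  · have := fam_pow hN hgi (hn i)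
    have e : a i + (m - a i) = m := by omega
    rwa [e] at this
  · rw [Submodule.mem_bot] at hgi
    rw [hgi, zero_smul]
    exact zero_mem _

theorem n_mem_free {W : Submodule k K} {s : ℕ} (n : Fin s → V) (a : Fin s → ℕ) (i : Fin s) :
    n i ∈ free W n a (a i) := by
  classical
  refine mem_free.2 ⟨Pi.single i 1, fun j => ?_, ?_⟩
  · by_cases h : j = i
    · subst h
      rw [Pi.single_eq_same]
      unfold shf
      rw [if_pos le_rfl, Nat.sub_self, pow_zero]
      exact Submodule.one_le.1 le_rfl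
    · rw [Pi.single_eq_of_ne h]
      exact zero_mem _
  · rw [Finset.sum_eq_single i]
    · rw [Pi.single_eq_same, one_smul]
    · intro j _ hj
      rw [Pi.single_eq_of_ne hj, zero_smul]
    · intro h; exact absurd (Finset.mem_univ i) h

/-- every element of the span is brought into the free family by a nonzero multiplier -/
theorem exists_mult_free {W : Submodule k K} (h1 : (1 : K) ∈ W)
    (hgen : IntermediateField.adjoin k (W : Set K) = ⊤) {s : ℕ} (n : Fin s → V)
    (a : Fin s → ℕ) (c : ℕ) {x : V} (hx : x ∈ Submodule.span K (Set.range n)) :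
    ∃ r : ℕ, ∃ t ∈ W ^ r, t ≠ 0 ∧ t • x ∈ free W n a (r + c) := by
  classical
  obtain ⟨b, hb⟩ := (Submodule.mem_span_range_iff_exists_fun K).1 hx
  choose r α hα t ht ht0 he using fun i => exists_frac h1 hgen (b i)
  refine ⟨∑ i, r i + ∑ i, a i, ∏ i, t i, ?_, Finset.prod_ne_zero_iff.2 fun i _ => ht0 i, ?_⟩
  · exact pow_mono_of_one h1 (Nat.le_add_right _ _) (prod_mem_pow _ _ _ fun i _ => ht i)
  · refine mem_free.2 ⟨fun i => (∏ i, t i) * b i, fun i => ?_, ?_⟩
    · have h2 : (∏ i, t i) * b i = α i * ∏ j ∈ Finset.univ.erase i, t j := by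
        rw [← Finset.mul_prod_erase _ _ (Finset.mem_univ i), ← he i]
        ring
      have h3 : α i * ∏ j ∈ Finset.univ.erase i, t j ∈ W ^ (∑ i, r i) := by
        rw [← Finset.add_sum_erase _ r (Finset.mem_univ i), pow_add]
        exact Submodule.mul_mem_mul (hα i) (prod_mem_pow _ _ _ fun j _ => ht j)
      have h4 : a i ≤ ∑ i, a i := Finset.single_le_sum (fun _ _ => Nat.zero_le _)
        (Finset.mem_univ i)
      simp only [h2]
      unfold shf
      rw [if_pos (by omega)]
      exact pow_mono_of_one h1 (by omega) h3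
    · rw [← hb, Finset.smul_sum]
      exact Finset.sum_congr rfl fun i _ => smul_smul _ _ _

/-! ### all primes of a filtration are nonzero -/

theorem chain_primes {W : Submodule k K} {N N' : ℕ → Submodule k V}
    {l : List ((ℕ → Submodule k K) × ℕ)} (h : Chain W N N' l)
    (hmul : ∀ c, ∀ x ∈ N' c, ∃ r : ℕ, ∃ t ∈ W ^ r, t ≠ 0 ∧ t • x ∈ N (r + c)) :
    ∀ qc ∈ l, HPrime W qc.1 ∧ ∃ m, qc.1 m ≠ ⊥ := by
  induction h with
  | nil => intro qc hqc; simp at hqc
  | @cons N₁ N₂ q c x l hch hst ih =>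
    intro qc hqc
    rcases List.mem_cons.1 hqc with h | h
    · subst h
      refine ⟨hst.prime, ?_⟩
      obtain ⟨r, t, ht, ht0, htx⟩ := hmul c x (step_x_mem hst)
      refine ⟨r, fun hbot => ht0 ?_⟩
      have : t ∈ (q, c).1 r := (hst.mem_q _ _).2 ⟨ht, chain_le hch _ htx⟩
      rwa [hbot, Submodule.mem_bot] at this
    · exact ih (fun c x hx => hmul c x (step_le hst _ hx)) qc h

/-! ### principal families in `K` -/

/-- `⨁ ω W ^ (m - e)` -/
def pr (W : Submodule k K) (ω : K) (e m : ℕ) : Submodule k K :=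
  (shf W e m).map (LinearMap.mulLeft k ω)

theorem pr_mem {W : Submodule k K} {ω : K} {e : ℕ} (m : ℕ) (a : K) :
    a ∈ pr W ω e (m + e) ↔ ∃ b ∈ W ^ m, a = ω * b := by
  unfold pr shf
  rw [if_pos (Nat.le_add_left _ _), Nat.add_sub_cancel]
  constructor
  · rintro ⟨b, hb, rfl⟩
    exact ⟨b, hb, rfl⟩
  · rintro ⟨b, hb, rfl⟩
    exact ⟨b, hb, rfl⟩

theorem pr_low {W : Submodule k K} {ω : K} {e : ℕ} (m : ℕ) (hm : m < e) :
    pr W ω e m = ⊥ := by
  unfold pr shf
  rw [if_neg (by omega), Submodule.map_bot]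

theorem pr_fin {W : Submodule k K} [Module.Finite k W] (ω : K) (e m : ℕ) :
    Module.Finite k (pr W ω e m) := by
  have := shf_fin (W := W) e m
  unfold pr
  infer_instance

theorem finrank_pr {W : Submodule k K} {ω : K} (h0 : ω ≠ 0) (e m : ℕ) :
    finrank k (pr W ω e m) = finrank k (shf W e m) := by
  unfold pr
  have hinj : Function.Injective (LinearMap.mulLeft k ω) := by
    intro x y hxy
    exact mul_left_cancel₀ h0 hxy
  exact (Submodule.equivMapOfInjective _ hinj _).finrank_eq.symm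

theorem pr_fam {W : Submodule k K} (ω : K) (e : ℕ) : Fam W (pr W ω e) := by
  intro m f hf v hv
  obtain ⟨g, hg, rfl⟩ := hv
  have hf' : f ∈ W ^ 1 := by rwa [pow_one]
  refine ⟨f * g, mul_mem_shf hf' hg, ?_⟩
  simp only [LinearMap.mulLeft_apply, smul_eq_mul]
  ring

theorem pr_le {W : Submodule k K} {ω : K} {e : ℕ} (hω : ω ∈ W ^ e) (m : ℕ) :
    pr W ω e m ≤ W ^ m := by
  rcases lt_or_ge m e with hm | hm
  · rw [pr_low m hm]; exact bot_le
  · obtain ⟨m', rfl⟩ := Nat.exists_eq_add_of_le' hm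
    intro a ha
    obtain ⟨b, hb, rfl⟩ := (pr_mem _ _).1 ha
    rw [add_comm m' e, pow_add]
    exact Submodule.mul_mem_mul hω hb

theorem pow_fam {W : Submodule k K} : Fam W (fun m => W ^ m) := by
  intro m f hf v hv
  simp only [pow_succ', smul_eq_mul]
  exact Submodule.mul_mem_mul hf hv

theorem pr_mult {W : Submodule k K} {ω : K} {e : ℕ} (hω : ω ∈ W ^ e) (h0 : ω ≠ 0) :
    ∀ c, ∀ x ∈ W ^ c, ∃ r : ℕ, ∃ t ∈ W ^ r, t ≠ 0 ∧ t • x ∈ pr W ω e (r + c) := by
  intro c x hx
  refine ⟨e, ω, hω, h0, ?_⟩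
  rw [add_comm e c, pr_mem]
  exact ⟨x, hx, rfl⟩

theorem fam_mono {W : Submodule k K} (h1 : (1 : K) ∈ W) {N : ℕ → Submodule k V}
    (hN : Fam W N) {m n : ℕ} (h : m ≤ n) : N m ≤ N n := by
  obtain ⟨c, rfl⟩ := Nat.exists_eq_add_of_le h
  intro v hv
  have h2 : (1 : K) ∈ W ^ c := by
    have := Submodule.pow_mem_pow W h1 c
    rwa [one_pow] at this
  have := fam_pow hN h2 hv
  rwa [one_smul] at this

/-! ### polynomials of degree at most two -/

theorem eval_quad {P : ℚ[X]} (hdeg : P.natDegree ≤ 2) (x : ℚ) :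
    P.eval x = P.coeff 0 + P.coeff 1 * x + P.coeff 2 * x ^ 2 := by
  rw [Polynomial.eval_eq_sum_range' (n := 3) (by omega)]
  simp [Finset.sum_range_succ]

end LSD

open LSD LSM

/-- Lower bound. -/
theorem lemLower {W : Submodule k K} [Module.Finite k W] (h1 : (1 : K) ∈ W)
    {P : ℚ[X]} (hP : HasHilbertPolynomial (fun m => finrank k ↥(W ^ m)) P)
    {N : ℕ → Submodule k V} (hfin : ∀ m, Module.Finite k (N m)) (hN : Fam W N) {s : ℕ}
    (hs : rank K N = s) :
    ∃ a : ℕ, ∀ᶠ m : ℕ in atTop, (s : ℚ) * P.eval ((m : ℚ) - a) ≤ finrank k (N m) := by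
  rcases Nat.eq_zero_or_pos s with rfl | hs0
  · exact ⟨0, Filter.Eventually.of_forall fun m => by simp⟩
  · have hrank : finrank K ↥(Submodule.span K (⋃ m, (N m : Set V))) = s := hs
    have : FiniteDimensional K ↥(Submodule.span K (⋃ m, (N m : Set V))) :=
      FiniteDimensional.of_finrank_pos (by omega)
    obtain ⟨f, hf, -, hli⟩ := Submodule.exists_fun_fin_finrank_span_eq K (⋃ m, (N m : Set V))
    have hf' : ∀ i, ∃ m, f i ∈ N m := fun i => by simpa using hf i
    choose c hc using hf'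
    refine ⟨∑ i, c i, ?_⟩
    set a := ∑ i, c i with ha
    have hfa : ∀ i, f i ∈ N a := fun i =>
      fam_mono h1 hN (Finset.single_le_sum (fun _ _ => Nat.zero_le _) (Finset.mem_univ i)) (hc i)
    have hle : ∀ m, finrank k (free W f (fun _ => a) m) ≤ finrank k (N m) := fun m => by
      have := hfin m
      exact Submodule.finrank_mono (free_le hN (a := fun _ => a) hfa m)
    have hev : ∀ᶠ m in atTop, (finrank k ↥(W ^ (m - a)) : ℚ) = P.eval (((m - a : ℕ)) : ℚ) :=
      (tendsto_sub_atTop_nat a).eventually hP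
    filter_upwards [hev, eventually_ge_atTop a] with m hm hma
    have h2 := hle m
    rw [finrank_free hli] at h2
    simp only [Finset.sum_const, Finset.card_univ, Fintype.card_fin, smul_eq_mul] at h2
    unfold shf at h2
    rw [if_pos hma, hrank] at h2
    rw [Nat.cast_sub hma] at hm
    rw [← hm]
    exact_mod_cast h2

namespace LSD

/-- curves -/
def Cv (W : Submodule k K) (q : ℕ → Submodule k K) : Prop :=
  HPrime W q ∧ (∃ m, q m ≠ ⊥) ∧ ¬ ∃ C, ∀ m, hq W q m ≤ C

open Classical in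
/-- the growth function of a curve, zero for other primes -/
noncomputable def gr (W : Submodule k K) (q : ℕ → Submodule k K) (m : ℕ) : ℕ :=
  if Cv W q then hq W q m else 0

theorem upper {W : Submodule k K} {𝒲 : Finset K} (hS : Setup W 𝒲)
    (hprime_cases : ∀ {q : ℕ → Submodule k K}, HPrime W q → (∃ m, q m ≠ ⊥) →
      (∃ C, ∀ m, hq W q m ≤ C) ∨
      ((∃ ord lam, CurveVal W q ord lam) ∧ HeightOne W q ∧ ¬ ∃ C, ∀ m, hq W q m ≤ C))
    (l : List ((ℕ → Submodule k K) × ℕ)) (hl : ∀ qc ∈ l, HPrime W qc.1 ∧ ∃ m, qc.1 m ≠ ⊥) :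
    ∃ C, ∀ m, (l.map fun qc => if qc.2 ≤ m then hq W qc.1 (m - qc.2) else 0).sum ≤
      (l.map fun qc => gr W qc.1 m).sum + C := by
  refine sum_shift_le (hq W) (gr W) l fun qc hqc => ?_
  obtain ⟨h1, h2⟩ := hl qc hqc
  by_cases hC : Cv W qc.1
  · obtain ⟨C, hgr⟩ := LSC.curve_growth_of hS hprime_cases h1 h2 hC.2.2
    refine ⟨0, fun m => ?_⟩
    rw [gr, if_pos hC, add_zero]
    exact (growth_shift hgr qc.2).1 m
  · have : ∃ C, ∀ m, hq W qc.1 m ≤ C := by
      by_contra hcon
      exact hC ⟨h1, h2, hcon⟩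
    obtain ⟨C, hb⟩ := this
    refine ⟨C, fun m => ?_⟩
    rw [gr, if_neg hC, zero_add]
    split_ifs
    · exact hb _
    · exact Nat.zero_le _

theorem lower {W : Submodule k K} {𝒲 : Finset K} (hS : Setup W 𝒲)
    (hprime_cases : ∀ {q : ℕ → Submodule k K}, HPrime W q → (∃ m, q m ≠ ⊥) →
      (∃ C, ∀ m, hq W q m ≤ C) ∨
      ((∃ ord lam, CurveVal W q ord lam) ∧ HeightOne W q ∧ ¬ ∃ C, ∀ m, hq W q m ≤ C))
    (l : List ((ℕ → Submodule k K) × ℕ)) :
    ∃ C, ∀ m, (l.map fun qc => gr W qc.1 m).sum ≤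
      (l.map fun qc => if qc.2 ≤ m then hq W qc.1 (m - qc.2) else 0).sum + C := by
  refine le_sum_shift (hq W) (gr W) l fun qc hqc => ?_
  by_cases hC : Cv W qc.1
  · obtain ⟨C, hgr⟩ := LSC.curve_growth_of hS hprime_cases hC.1 hC.2.1 hC.2.2
    obtain ⟨C', hC'⟩ := (growth_shift hgr qc.2).2
    refine ⟨C', fun m => ?_⟩
    rw [gr, if_pos hC]
    exact hC' m
  · refine ⟨0, fun m => ?_⟩
    rw [gr, if_neg hC]
    exact Nat.zero_le _

/-- some chart meets the curve -/
theorem exists_chart {W : Submodule k K} {𝒲 : Finset K} (hS : Setup W 𝒲)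
    {q : ℕ → Submodule k K} (hq' : HPrime W q) {ord : K → ℤ} {lam : ℤ}
    (hv : CurveVal W q ord lam) : ∃ w ∈ 𝒲, ord w = lam := by
  by_contra hcon
  push Not at hcon
  obtain ⟨n, hn⟩ := hS.atlas.cover
  obtain ⟨w, hw, hw0, hwl⟩ := hv.nonirr
  have h1 : w ^ (n + 1) ∈ q (n + 1) := by
    have h2 : W ^ (n + 1) ≤ q (n + 1) := by
      refine hn.trans (iSup₂_le fun u hu => ?_)
      rintro _ ⟨f, hf, rfl⟩
      have huq : u ∈ q 1 := by
        by_contra hcon2
        have hu1 : u ∈ W ^ 1 := by rw [pow_one]; exact hS.atlas.mem u hu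
        have := (ord_of_not_mem hv hu1 hcon2).2
        exact hcon u hu (by simpa using this)
      have := fam_pow hq'.fam hf huq
      rw [add_comm 1 n] at this
      rw [LinearMap.mulLeft_apply, mul_comm]
      exact this
    exact h2 (Submodule.pow_mem_pow _ hw _)
  have h3 := (hv.mem_iff (n + 1) (w ^ (n + 1)) (Submodule.pow_mem_pow _ hw _)
    (pow_ne_zero _ hw0)).1 h1
  rw [ord_pow hv hw0, hwl] at h3
  exact lt_irrefl _ h3

theorem chart_ord_nonneg {W : Submodule k K} (h1 : (1 : K) ∈ W) {q : ℕ → Submodule k K}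
    {ord : K → ℤ} {lam : ℤ} (hv : CurveVal W q ord lam) {w : K} (hw : w ∈ W) (hw0 : w ≠ 0)
    (hwl : ord w = lam) {y : K} (hy : y ∈ chart W w) (hy0 : y ≠ 0) : 0 ≤ ord y := by
  obtain ⟨n, hn⟩ := (mem_chart_iff h1 hw hw0).1 hy
  have := hv.nonneg n _ hn (mul_ne_zero (pow_ne_zero _ hw0) hy0)
  rw [hv.mul _ _ (pow_ne_zero _ hw0) hy0, ord_pow hv hw0, hwl] at this
  linarith

theorem rank_pow {W : Submodule k K} : rank K (fun m => W ^ m) = 1 := by
  unfold rank
  have : Submodule.span K (⋃ m, ((W ^ m : Submodule k K) : Set K)) = ⊤ := by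
    rw [Submodule.eq_top_iff']
    intro x
    have h1 : (1 : K) ∈ Submodule.span K (⋃ m, ((W ^ m : Submodule k K) : Set K)) :=
      Submodule.subset_span (Set.mem_iUnion.2 ⟨0, by simp⟩)
    have := Submodule.smul_mem _ x h1
    simpa using this
  rw [this, finrank_top, finrank_self]

end LSD

/-- `lemS`, from the statement of `hprime_cases`. -/
theorem LSD.lemS_of {W : Submodule k K} {𝒲 : Finset K} (hS : Setup W 𝒲)
    (hprime_cases : ∀ {q : ℕ → Submodule k K}, HPrime W q → (∃ m, q m ≠ ⊥) →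
      (∃ C, ∀ m, hq W q m ≤ C) ∨
      ((∃ ord lam, CurveVal W q ord lam) ∧ HeightOne W q ∧ ¬ ∃ C, ∀ m, hq W q m ≤ C)) {P : ℚ[X]}
    (hP : HasHilbertPolynomial (fun m => finrank k ↥(W ^ m)) P) (hdeg : P.natDegree ≤ 2)
    {M N : ℕ → Submodule k V} (hM : IsTorsionFreeSheaf W M) (hNM : ∀ m, N m ≤ M m)
    (hN : Fam W N) {s : ℕ} (hs0 : 0 < s) (hs : rank K N = s) {Φ : (Fin s → V) → K}
    (hΦ : IsPAlt 2 Φ) (j : ℕ)
    (hint : ∀ w ∈ 𝒲, ∀ (m : Fin s → ℕ) (v : Fin s → V), (∀ i, v i ∈ N (m i)) →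
      Φ v / w ^ (j + 2 * ∑ i, m i) ∈ chart W w)
    (hne : ∃ (m : Fin s → ℕ) (v : Fin s → V), (∀ i, v i ∈ N (m i)) ∧ Φ v ≠ 0) :
    ∃ C : ℚ, ∀ᶠ m : ℕ in atTop,
      (finrank k (N m) : ℚ) ≤ s * P.eval (m : ℚ) + j * P.coeff 2 * m + C := by
  classical
  have := hS.fin
  have h1 := hS.one
  obtain ⟨a, n, hn, hne⟩ := hne
  have hli := palt_linearIndependent hΦ hne
  -- the free subfamily
  set N₀ := free W n a with hN₀
  have hN₀fam : Fam W N₀ := free_fam n a
  have hN₀le : ∀ m, N₀ m ≤ N m := free_le hN hn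
  -- the section ω
  set ω := Φ n with hω
  set e := j + 2 * ∑ i, a i with he
  obtain ⟨w₀, hw₀⟩ : ∃ w, w ∈ 𝒲 := by
    by_contra hcon
    push Not at hcon
    obtain ⟨r, hr⟩ := hS.atlas.cover
    have : (1 : K) ∈ (⨆ w ∈ 𝒲, (W ^ r).map (LinearMap.mulLeft k w)) := by
      apply hr
      have := Submodule.pow_mem_pow W h1 (r + 1)
      rwa [one_pow] at this
    have hbot : (⨆ w ∈ 𝒲, (W ^ r).map (LinearMap.mulLeft k w)) = ⊥ := by
      refine le_bot_iff.1 (iSup₂_le fun w hw => absurd hw (hcon w))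
    rw [hbot, Submodule.mem_bot] at this
    exact one_ne_zero this
  have hw₀W := hS.atlas.mem w₀ hw₀
  have hw₀0 := hS.atlas.ne_zero w₀ hw₀
  obtain ⟨b, hb⟩ := (mem_chart_iff h1 hw₀W hw₀0).1 (hint w₀ hw₀ a n hn)
  set h := w₀ ^ b with hh
  have hhW : h ∈ W ^ b := Submodule.pow_mem_pow _ hw₀W _
  have hh0 : h ≠ 0 := pow_ne_zero _ hw₀0
  have hωW : h * ω ∈ W ^ (b + e) := by
    rw [pow_add]
    have := Submodule.mul_mem_mul hb (Submodule.pow_mem_pow W hw₀W e)
    have e1 : w₀ ^ b * (Φ n / w₀ ^ (j + 2 * ∑ i, a i)) * w₀ ^ e = h * ω := by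
      rw [hh, hω, he]; field_simp
    rwa [e1] at this
  have hhω0 : h * ω ≠ 0 := mul_ne_zero hh0 hne
  -- the three chains
  obtain ⟨l1, hl1⟩ := exists_chain h1 hM hN₀fam hN hN₀le hNM
  obtain ⟨l2, hl2⟩ := exists_chain h1 (isTorsionFreeSheaf_self (W := W)) (pr_fam (h * ω) (b + e))
    pow_fam (pr_le hωW) (fun m => le_rfl)
  obtain ⟨l3, hl3⟩ := exists_chain h1 (isTorsionFreeSheaf_self (W := W)) (pr_fam h b)
    pow_fam (pr_le hhW) (fun m => le_rfl)
  -- all primes are nonzero
  have hspan : ∀ c x, x ∈ N c → x ∈ Submodule.span K (Set.range n) := by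
    intro c x hx
    have hle : Submodule.span K (Set.range n) ≤
        Submodule.span K (⋃ m, (N m : Set V)) := by
      apply Submodule.span_mono
      rintro _ ⟨i, rfl⟩
      exact Set.mem_iUnion.2 ⟨a i, hn i⟩
    have hrank : finrank K ↥(Submodule.span K (⋃ m, (N m : Set V))) = s := hs
    have : FiniteDimensional K ↥(Submodule.span K (⋃ m, (N m : Set V))) :=
      FiniteDimensional.of_finrank_pos (by omega)
    have heq : Submodule.span K (Set.range n) = Submodule.span K (⋃ m, (N m : Set V)) := by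
      apply Submodule.eq_of_le_of_finrank_eq hle
      rw [hrank, finrank_span_eq_card hli, Fintype.card_fin]
    rw [heq]
    exact Submodule.subset_span (Set.mem_iUnion.2 ⟨c, hx⟩)
  have hp1 := chain_primes hl1 fun c x hx => exists_mult_free h1 hS.gen n a c (hspan c x hx)
  have hp3 := chain_primes hl3 (pr_mult hhW hh0)
  obtain ⟨C1, hC1⟩ := upper hS hprime_cases l1 hp1
  obtain ⟨C3, hC3⟩ := upper hS hprime_cases l3 hp3
  obtain ⟨C2, hC2⟩ := lower hS hprime_cases l2
  -- multiplicities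
  have hmult : ∀ m, 2 * (l1.map fun qc => gr W qc.1 m).sum +
      (l3.map fun qc => gr W qc.1 m).sum ≤ (l2.map fun qc => gr W qc.1 m).sum := by
    intro m
    refine sum_le_of_count (fun q => gr W q m) l1 l2 l3 fun q hg => ?_
    have hCv : Cv W q := by
      by_contra hcon
      exact hg (by simp [gr, if_neg hcon])
    obtain ⟨⟨ord, lam, hv⟩, hmin, -⟩ :=
      (hprime_cases hCv.1 hCv.2.1).resolve_left hCv.2.2
    obtain ⟨w, hw, hwl⟩ := exists_chart hS hCv.1 hv
    have hwW := hS.atlas.mem w hw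
    have hw0 := hS.atlas.ne_zero w hw
    have hμ1 := chain_mult_le h1 hCv.1 hv hl1 hN₀fam hs0 hs hΦ (j * lam) (by
      intro m v hvm hvne
      have h2 := chart_ord_nonneg h1 hv hwW hw0 hwl (hint w hw m v hvm)
        (div_ne_zero hvne (pow_ne_zero _ hw0))
      have h3 := hv.mul (Φ v / w ^ (j + 2 * ∑ i, m i)) (w ^ (j + 2 * ∑ i, m i))
        (div_ne_zero hvne (pow_ne_zero _ hw0)) (pow_ne_zero _ hw0)
      rw [div_mul_cancel₀ _ (pow_ne_zero _ hw0), ord_pow hv hw0, hwl] at h3
      push_cast at h3 ⊢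
      nlinarith) a n (fun i => n_mem_free n a i) hne
    have hμ3 := chain_mult_le (p := 1) (s := 1) (Φ := fun v : Fin 1 → K => v 0) h1 hCv.1 hv hl3
      (pr_fam h b) one_pos rank_pow
      { add := fun v i x y => by
          have : i = 0 := Subsingleton.elim _ _
          subst this
          simp
        smul := fun v i a x => by
          have : i = 0 := Subsingleton.elim _ _
          subst this
          simp
        alt := fun v i j hij => absurd (Subsingleton.elim i j) hij } 0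
      (by
        intro m v hvm hvne
        have := hv.nonneg _ _ (hvm 0) hvne
        simp
        exact this) (fun _ => b) (fun _ => h)
      (fun i => by
        have := (pr_mem (W := W) (ω := h) (e := b) 0 h).2 ⟨1, by simp, by simp⟩
        simpa using this) hh0
    have hμ2 := chain_mult_ge h1 hCv.1 hmin hv hωW hhω0 hl2 (fun m a => pr_mem m a)
      (fun m hm => pr_low m hm)
    rw [hv.mul _ _ hh0 hne] at hμ2
    simp only [Finset.univ_unique, Finset.sum_const, Finset.card_singleton, one_smul] at hμ3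
    have : (2 * (l1.countP fun qc => decide (qc.1 = q)) +
      (l3.countP fun qc => decide (qc.1 = q)) : ℤ) ≤
        (l2.countP fun qc => decide (qc.1 = q)) := by
      push_cast at hμ1 hμ2 hμ3 ⊢
      rw [he] at hμ2
      push_cast at hμ2
      nlinarith
    exact_mod_cast this
  -- dimensions
  have d1 := fun m => Chain.finrank_eq hl1 (fun m => free_fin n a m) m
  have d2 := fun m => Chain.finrank_eq hl2 (fun m => pr_fin (h * ω) (b + e) m) m
  have d3 := fun m => Chain.finrank_eq hl3 (fun m => pr_fin h b m) m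
  have hev : ∀ c : ℕ, ∀ᶠ m : ℕ in atTop,
      (finrank k (shf W c m) : ℚ) = P.eval ((m : ℚ) - c) := by
    intro c
    have hev : ∀ᶠ m in atTop, (finrank k ↥(W ^ (m - c)) : ℚ) = P.eval (((m - c : ℕ)) : ℚ) :=
      (tendsto_sub_atTop_nat c).eventually hP
    filter_upwards [hev, eventually_ge_atTop c] with m hm hmc
    unfold shf
    rw [if_pos hmc, hm, Nat.cast_sub hmc]
  refine ⟨(∑ i, (P.coeff 2 * (a i : ℚ) ^ 2 - P.coeff 1 * a i)) +
    (2 * (C1 : ℚ) + C2 + C3) / 2 + P.coeff 1 * e / 2 - P.coeff 2 * e * b -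
      P.coeff 2 * e ^ 2 / 2, ?_⟩
  filter_upwards [hP, hev b, hev (b + e), eventually_all.2 fun i => hev (a i)]
    with m hm hb' hbe hai
  have e1 := d1 m
  have e2 := d2 m
  have e3 := d3 m
  rw [finrank_free hli] at e1
  rw [finrank_pr hhω0] at e2
  rw [finrank_pr hh0] at e3
  have f1 := hC1 m
  have f2 := hC2 m
  have f3 := hC3 m
  have f4 := hmult m
  have e1' : (finrank k (N m) : ℚ) = ∑ i, P.eval ((m : ℚ) - a i) +
    ((l1.map fun qc => if qc.2 ≤ m then hq W qc.1 (m - qc.2) else 0).sum : ℕ) := by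
    rw [e1]; push_cast
    congr 1
    exact Finset.sum_congr rfl fun i _ => hai i
  have e2' : P.eval (m : ℚ) = P.eval ((m : ℚ) - (b + e : ℕ)) +
    ((l2.map fun qc => if qc.2 ≤ m then hq W qc.1 (m - qc.2) else 0).sum : ℕ) := by
    rw [← hbe, ← hm]; exact_mod_cast e2
  have e3' : P.eval (m : ℚ) = P.eval ((m : ℚ) - b) +
    ((l3.map fun qc => if qc.2 ≤ m then hq W qc.1 (m - qc.2) else 0).sum : ℕ) := by
    rw [← hb', ← hm]; exact_mod_cast e3
  have key : (2 * ((l1.map fun qc => if qc.2 ≤ m then hq W qc.1 (m - qc.2) else 0).sum : ℕ) +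
    ((l3.map fun qc => if qc.2 ≤ m then hq W qc.1 (m - qc.2) else 0).sum : ℕ) : ℚ) ≤
    ((l2.map fun qc => if qc.2 ≤ m then hq W qc.1 (m - qc.2) else 0).sum : ℕ) +
      (2 * C1 + C2 + C3) := by
    have : 2 * (l1.map fun qc => if qc.2 ≤ m then hq W qc.1 (m - qc.2) else 0).sum +
      (l3.map fun qc => if qc.2 ≤ m then hq W qc.1 (m - qc.2) else 0).sum ≤
      (l2.map fun qc => if qc.2 ≤ m then hq W qc.1 (m - qc.2) else 0).sum +
      (2 * C1 + C2 + C3) := by omega
    exact_mod_cast this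
  have eN : ∑ i, P.eval ((m : ℚ) - a i) = s * P.eval (m : ℚ) -
      2 * P.coeff 2 * m * (∑ i, (a i : ℚ)) +
      ∑ i, (P.coeff 2 * (a i : ℚ) ^ 2 - P.coeff 1 * a i) := by
    have : ∀ i, P.eval ((m : ℚ) - a i) = P.eval (m : ℚ) - 2 * P.coeff 2 * m * a i +
        (P.coeff 2 * (a i : ℚ) ^ 2 - P.coeff 1 * a i) := by
      intro i
      rw [eval_quad hdeg, eval_quad hdeg]; ring
    rw [Finset.sum_congr rfl fun i _ => this i, Finset.sum_add_distrib, Finset.sum_sub_distrib,
      Finset.sum_const, Finset.card_univ, Fintype.card_fin, nsmul_eq_mul, ← Finset.mul_sum]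
  have eP : P.eval ((m : ℚ) - b) - P.eval ((m : ℚ) - (b + e : ℕ)) =
      P.coeff 1 * e + P.coeff 2 * (2 * e * (m - b) - e ^ 2) := by
    rw [eval_quad hdeg, eval_quad hdeg]; push_cast; ring
  have ee : (e : ℚ) = j + 2 * ∑ i, (a i : ℚ) := by rw [he]; push_cast; ring
  have hfin : P.coeff 2 * e * m - 2 * P.coeff 2 * m * (∑ i, (a i : ℚ)) = j * P.coeff 2 * m := by
    rw [ee]; ring
  rw [e1', eN]
  linarith [key, e2', e3', eP, hfin]

end Pool.Agent.helper97.BG
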