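import Pool.Agent.helper97.BG.LSDefs

/-!
# Multiplicities in prime filtrations via valuations (module LSM)
-/

namespace Pool.Agent.helper97.BG

open Polynomial Filter Module

set_option linter.unusedSectionVars false

variable {k K V : Type*} [Field k] [Field K] [Algebra k K] [AddCommGroup V] [Module K V]
  [Module k V] [IsScalarTower k K V]

namespace LSM

/-! ### alternating semilinear maps -/

theorem palt_zero {p s : ℕ} {Φ : (Fin s → V) → K} (h : IsPAlt p Φ) (v : Fin s → V) (i : Fin s) :
    Φ (Function.update v i 0) = 0 := by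
  have := h.add v i 0 0
  simpa using this

theorem palt_sum {p s : ℕ} {Φ : (Fin s → V) → K} (h : IsPAlt p Φ) (v : Fin s → V) (i : Fin s)
    {ι : Type*} (S : Finset ι) (c : ι → K) (y : ι → V) :
    Φ (Function.update v i (∑ j ∈ S, c j • y j)) =
      ∑ j ∈ S, c j ^ p * Φ (Function.update v i (y j)) := by
  classical
  induction S using Finset.induction_on with
  | empty => simp [palt_zero h]
  | insert a S ha ih => rw [Finset.sum_insert ha, Finset.sum_insert ha, h.add, h.smul, ih]

theorem palt_update_ne {p s : ℕ} {Φ : (Fin s → V) → K} (h : IsPAlt p Φ) (v : Fin s → V)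
    {i j : Fin s} (hij : i ≠ j) : Φ (Function.update v i (v j)) = 0 := by
  apply h.alt _ i j hij
  rw [Function.update_self, Function.update_of_ne hij.symm]

/-- replacing an entry by a combination of all entries -/
theorem palt_update_comb {p s : ℕ} {Φ : (Fin s → V) → K} (h : IsPAlt p Φ) (v : Fin s → V)
    (i : Fin s) (b : Fin s → K) :
    Φ (Function.update v i (∑ j, b j • v j)) = b i ^ p * Φ v := by
  classical
  rw [palt_sum h, Finset.sum_eq_single i]
  · rw [Function.update_eq_self]
  · intro j _ hj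
    rw [palt_update_ne h v hj.symm, mul_zero]
  · intro hi; exact absurd (Finset.mem_univ i) hi

theorem palt_linearIndependent {p s : ℕ} {Φ : (Fin s → V) → K} (h : IsPAlt p Φ) {v : Fin s → V}
    (hv : Φ v ≠ 0) : LinearIndependent K v := by
  classical
  rw [linearIndependent_iff']
  intro S g hg i hi
  by_contra hgi
  apply hv
  -- `v i` is a combination of the others
  have h1 : v i = ∑ j ∈ S.erase i, (-(g j / g i)) • v j := by
    rw [← Finset.add_sum_erase _ _ hi] at hg
    have : g i • v i = -∑ j ∈ S.erase i, g j • v j := eq_neg_of_add_eq_zero_left hg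
    have h2 : v i = (g i)⁻¹ • (g i • v i) := by rw [smul_smul, inv_mul_cancel₀ hgi, one_smul]
    rw [h2, this, smul_neg, Finset.smul_sum, ← Finset.sum_neg_distrib]
    refine Finset.sum_congr rfl fun j _ => ?_
    rw [smul_smul, ← neg_smul, div_eq_inv_mul]
  have h2 : v = Function.update v i (v i) := (Function.update_eq_self i v).symm
  rw [h2, h1, palt_sum h]
  refine Finset.sum_eq_zero fun j hj => ?_
  rw [palt_update_ne h v (Finset.ne_of_mem_erase hj).symm, mul_zero]

/-! ### steps and chains -/

theorem step_le {W : Submodule k K} {N N₁ : ℕ → Submodule k V} {q : ℕ → Submodule k K} {c : ℕ}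
    {x : V} (h : Step W N N₁ q c x) (m : ℕ) : N m ≤ N₁ m := by
  intro v hv
  rcases lt_or_ge m c with hm | hm
  · rw [h.low m hm]; exact hv
  · obtain ⟨m', rfl⟩ := Nat.exists_eq_add_of_le' hm
    rw [h.mem]
    exact ⟨v, hv, 0, zero_mem _, by simp⟩

theorem step_x_mem {W : Submodule k K} {N N₁ : ℕ → Submodule k V} {q : ℕ → Submodule k K}
    {c : ℕ} {x : V} (h : Step W N N₁ q c x) : x ∈ N₁ c := by
  have := (h.mem 0 x).2 ⟨0, zero_mem _, 1, by simp, by simp⟩
  simpa using this

theorem step_fam {W : Submodule k K} {N N₁ : ℕ → Submodule k V} {q : ℕ → Submodule k K} {c : ℕ}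
    {x : V} (h : Step W N N₁ q c x) (hN : Fam W N) : Fam W N₁ := by
  intro m f hf v hv
  rcases lt_or_ge m c with hm | hm
  · rw [h.low m hm] at hv
    exact step_le h _ (hN m f hf v hv)
  · obtain ⟨m', rfl⟩ := Nat.exists_eq_add_of_le' hm
    obtain ⟨u, hu, a, ha, rfl⟩ := (h.mem _ _).1 hv
    have e : m' + c + 1 = (m' + 1) + c := by ring
    rw [e, h.mem]
    refine ⟨f • u, ?_, f * a, ?_, ?_⟩
    · rw [← e]; exact hN _ f hf u hu
    · rw [pow_succ']; exact Submodule.mul_mem_mul hf ha
    · rw [smul_add, smul_smul]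

theorem chain_le {W : Submodule k K} {N N' : ℕ → Submodule k V}
    {l : List ((ℕ → Submodule k K) × ℕ)} (h : Chain W N N' l) (m : ℕ) : N m ≤ N' m := by
  induction h with
  | nil => exact le_rfl
  | cons _ hs ih => exact ih.trans (step_le hs m)

theorem chain_fam {W : Submodule k K} {N N' : ℕ → Submodule k V}
    {l : List ((ℕ → Submodule k K) × ℕ)} (h : Chain W N N' l) (hN : Fam W N) : Fam W N' := by
  induction h with
  | nil => exact hN
  | cons _ hs ih => exact step_fam hs ih

theorem fam_pow {W : Submodule k K} {N : ℕ → Submodule k V} (hN : Fam W N) {a m : ℕ} {f : K}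
    (hf : f ∈ W ^ a) {v : V} (hv : v ∈ N m) : f • v ∈ N (m + a) := by
  induction a generalizing f with
  | zero =>
    rw [pow_zero, Submodule.mem_one] at hf
    obtain ⟨r, rfl⟩ := hf
    rw [algebraMap_smul]
    exact Submodule.smul_mem _ _ hv
  | succ a ih =>
    rw [pow_succ'] at hf
    refine Submodule.mul_induction_on hf ?_ ?_
    · intro x hx y hy
      rw [mul_smul]
      exact hN _ x hx _ (ih hy)
    · intro x y hx hy
      rw [add_smul]
      exact add_mem hx hy

/-! ### valuations -/

theorem ord_one {W : Submodule k K} {q : ℕ → Submodule k K} {ord : K → ℤ} {lam : ℤ}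
    (hv : CurveVal W q ord lam) : ord 1 = 0 := by
  have := hv.mul 1 1 one_ne_zero one_ne_zero
  simp at this
  exact this

theorem ord_pow {W : Submodule k K} {q : ℕ → Submodule k K} {ord : K → ℤ} {lam : ℤ}
    (hv : CurveVal W q ord lam) {x : K} (hx : x ≠ 0) (n : ℕ) : ord (x ^ n) = n * ord x := by
  induction n with
  | zero => simp [ord_one hv]
  | succ n ih =>
    rw [pow_succ, hv.mul _ _ (pow_ne_zero _ hx) hx, ih]
    push_cast; ring

theorem ord_prod {W : Submodule k K} {q : ℕ → Submodule k K} {ord : K → ℤ} {lam : ℤ}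
    (hv : CurveVal W q ord lam) {ι : Type*} (S : Finset ι) (f : ι → K) (hf : ∀ i ∈ S, f i ≠ 0) :
    ord (∏ i ∈ S, f i) = ∑ i ∈ S, ord (f i) := by
  classical
  induction S using Finset.induction_on with
  | empty => simp [ord_one hv]
  | insert a S ha ih =>
    rw [Finset.prod_insert ha, Finset.sum_insert ha, hv.mul, ih]
    · intro i hi; exact hf i (Finset.mem_insert_of_mem hi)
    · exact hf a (Finset.mem_insert_self a S)
    · exact Finset.prod_ne_zero_iff.2 fun i hi => hf i (Finset.mem_insert_of_mem hi)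

theorem ord_of_not_mem {W : Submodule k K} {q : ℕ → Submodule k K} {ord : K → ℤ} {lam : ℤ}
    (hv : CurveVal W q ord lam) {n : ℕ} {t : K} (ht : t ∈ W ^ n) (htq : t ∉ q n) :
    t ≠ 0 ∧ ord t = n * lam := by
  have h0 : t ≠ 0 := by rintro rfl; exact htq (zero_mem _)
  refine ⟨h0, le_antisymm ?_ (hv.nonneg n t ht h0)⟩
  exact not_lt.1 fun h => htq ((hv.mem_iff n t ht h0).2 h)

theorem prod_mem_pow {W : Submodule k K} {ι : Type*} (S : Finset ι) (n : ι → ℕ) (t : ι → K)
    (h : ∀ i ∈ S, t i ∈ W ^ n i) : ∏ i ∈ S, t i ∈ W ^ (∑ i ∈ S, n i) := by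
  classical
  induction S using Finset.induction_on with
  | empty => simp
  | insert a S ha ih =>
    rw [Finset.prod_insert ha, Finset.sum_insert ha, pow_add]
    exact Submodule.mul_mem_mul (h a (Finset.mem_insert_self a S))
      (ih fun i hi => h i (Finset.mem_insert_of_mem hi))

/-- one step of the upper bound -/
theorem le_step {W : Submodule k K} {q : ℕ → Submodule k K} {ord : K → ℤ} {lam : ℤ}
    (hv : CurveVal W q ord lam)
    {N₁ N₂ : ℕ → Submodule k V} {c : ℕ} {x : V} (hst : Step W N₁ N₂ q c x)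
    (hN₁ : Fam W N₁) {s p : ℕ} {Φ : (Fin s → V) → K} (hΦ : IsPAlt p Φ)
    {m : Fin s → ℕ} {v : Fin s → V} (hvm : ∀ i, v i ∈ N₁ (m i)) (hne : Φ v ≠ 0)
    (hx : x ∈ Submodule.span K (Set.range v)) :
    ∃ (m' : Fin s → ℕ) (v' : Fin s → V), (∀ i, v' i ∈ N₂ (m' i)) ∧ Φ v' ≠ 0 ∧
      ord (Φ v') - p * (∑ i, (m' i : ℤ)) * lam + p ≤ ord (Φ v) - p * (∑ i, (m i : ℤ)) * lam := by
  classical
  obtain ⟨b, hb⟩ := (Submodule.mem_span_range_iff_exists_fun K).1 hx
  by_cases hex : ∃ i, b i ≠ 0 ∧ ord (b i) + ((m i : ℤ) - c) * lam ≤ -1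
  · obtain ⟨i, hbi, hord⟩ := hex
    refine ⟨Function.update m i c, Function.update v i x, ?_, ?_, ?_⟩
    · intro j
      by_cases hj : j = i
      · subst hj
        simp only [Function.update_self]
        exact step_x_mem hst
      · rw [Function.update_of_ne hj, Function.update_of_ne hj]
        exact step_le hst _ (hvm j)
    · rw [← hb, palt_update_comb hΦ]
      exact mul_ne_zero (pow_ne_zero _ hbi) hne
    · have e1 : Φ (Function.update v i x) = b i ^ p * Φ v := by
        rw [← hb, palt_update_comb hΦ]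
      have e2 : ∑ j, ((Function.update m i c j : ℕ) : ℤ) = (∑ j, (m j : ℤ)) - m i + c := by
        rw [← Finset.add_sum_erase _ _ (Finset.mem_univ i),
          ← Finset.add_sum_erase (a := i) Finset.univ (fun j => (m j : ℤ)) (Finset.mem_univ i)]
        rw [Function.update_self]
        have : ∑ j ∈ Finset.univ.erase i, ((Function.update m i c j : ℕ) : ℤ) =
            ∑ j ∈ Finset.univ.erase i, (m j : ℤ) :=
          Finset.sum_congr rfl fun j hj => by
            rw [Function.update_of_ne (Finset.ne_of_mem_erase hj)]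
        rw [this]; ring
      rw [e1, e2, hv.mul _ _ (pow_ne_zero _ hbi) hne, ord_pow hv hbi]
      have : (p : ℤ) * (ord (b i) + ((m i : ℤ) - c) * lam) ≤ p * (-1) :=
        mul_le_mul_of_nonneg_left hord (by positivity)
      nlinarith [this]
  · exfalso
    push Not at hex
    obtain ⟨w, hwW, hw0, hw⟩ := hv.nonirr
    -- write `b i w ^ (m i) = α i / t i * w ^ c`
    have key : ∀ i, ∃ n : ℕ, ∃ t ∈ W ^ n, t ∉ q n ∧
        ∃ α ∈ W ^ n, t * (b i * w ^ (m i)) = α * w ^ c := by
      intro i
      by_cases hbi : b i = 0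
      · refine ⟨0, 1, by simp, hst.prime.one, 0, zero_mem _, by simp [hbi]⟩
      · have h1 := hex i hbi
        have hy : b i * w ^ (m i) / w ^ c ≠ 0 := by positivity
        have hord : 0 ≤ ord (b i * w ^ (m i) / w ^ c) := by
          have e : ord (b i * w ^ (m i) / w ^ c * w ^ c) =
              ord (b i * w ^ (m i) / w ^ c) + ord (w ^ c) := hv.mul _ _ hy (pow_ne_zero _ hw0)
          rw [div_mul_cancel₀ _ (pow_ne_zero _ hw0), hv.mul _ _ hbi (pow_ne_zero _ hw0),
            ord_pow hv hw0, ord_pow hv hw0, hw] at e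
          nlinarith [h1, e]
        obtain ⟨n, α, hα, t, ht, htq, he⟩ := hv.frac _ hy hord
        refine ⟨n, t, ht, htq, α, hα, ?_⟩
        rw [← he]
        field_simp
    choose n t ht htq α hα he using key
    have htne : ∀ i, t i ≠ 0 := fun i => (ord_of_not_mem hv (ht i) (htq i)).1
    set T : K := (∏ i, t i) * w ^ (∑ i, m i) with hT
    have hTW : T ∈ W ^ (∑ i, n i + ∑ i, m i) := by
      rw [pow_add]
      exact Submodule.mul_mem_mul (prod_mem_pow _ _ _ fun i _ => ht i)
        (Submodule.pow_mem_pow _ hwW _)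
    have hTx : T • x ∈ N₁ (∑ i, n i + ∑ i, m i + c) := by
      rw [← hb, Finset.smul_sum]
      refine Submodule.sum_mem _ fun i _ => ?_
      have e1 : T * b i = (α i * w ^ c * (∏ j ∈ Finset.univ.erase i, t j)) *
          w ^ (∑ j ∈ Finset.univ.erase i, m j) := by
        rw [hT, ← Finset.mul_prod_erase _ _ (Finset.mem_univ i),
          ← Finset.add_sum_erase _ _ (Finset.mem_univ i), pow_add, ← he i]
        ring
      rw [smul_smul, e1]
      have hmem : (α i * w ^ c * (∏ j ∈ Finset.univ.erase i, t j)) *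
          w ^ (∑ j ∈ Finset.univ.erase i, m j) ∈
            W ^ (n i + c + (∑ j ∈ Finset.univ.erase i, n j) +
              ∑ j ∈ Finset.univ.erase i, m j) := by
        rw [pow_add, pow_add, pow_add]
        exact Submodule.mul_mem_mul (Submodule.mul_mem_mul (Submodule.mul_mem_mul (hα i)
          (Submodule.pow_mem_pow _ hwW _)) (prod_mem_pow _ _ _ fun j _ => ht j))
          (Submodule.pow_mem_pow _ hwW _)
      have := fam_pow hN₁ hmem (hvm i)
      have e2 : m i + (n i + c + (∑ j ∈ Finset.univ.erase i, n j) +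
              ∑ j ∈ Finset.univ.erase i, m j) = ∑ i, n i + ∑ i, m i + c := by
        rw [← Finset.add_sum_erase _ n (Finset.mem_univ i),
          ← Finset.add_sum_erase _ m (Finset.mem_univ i)]
        ring
      rwa [e2] at this
    have hTq : T ∈ q (∑ i, n i + ∑ i, m i) := (hst.mem_q _ _).2 ⟨hTW, hTx⟩
    have hT0 : T ≠ 0 := mul_ne_zero (Finset.prod_ne_zero_iff.2 fun i _ => htne i)
      (pow_ne_zero _ hw0)
    have h1 := (hv.mem_iff _ T hTW hT0).1 hTq
    have h2 : ord T = ((∑ i, n i + ∑ i, m i : ℕ) : ℤ) * lam := by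
      rw [hT, hv.mul _ _ (Finset.prod_ne_zero_iff.2 fun i _ => htne i) (pow_ne_zero _ hw0),
        ord_prod hv _ _ (fun i _ => htne i), ord_pow hv hw0, hw]
      rw [Finset.sum_congr rfl fun i _ => (ord_of_not_mem hv (ht i) (htq i)).2,
        ← Finset.sum_mul]
      push_cast
      ring
    omega

/-- a minimiser of the normalised order -/
theorem exists_min {P : ℤ → Prop} {z : ℤ} (hb : ∀ y, P y → z ≤ y) {y₀ : ℤ} (h₀ : P y₀) :
    ∃ y, P y ∧ (∀ y', P y' → y ≤ y') := by
  classical
  obtain ⟨y, hy, hmin⟩ := Int.exists_least_of_bdd (P := P) ⟨z, hb⟩ ⟨y₀, h₀⟩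
  exact ⟨y, hy, hmin⟩

end LSM

open LSM

open Classical in
theorem chain_mult_le {W : Submodule k K} (h1 : (1 : K) ∈ W) {q : ℕ → Submodule k K}
    (hq' : HPrime W q) {ord : K → ℤ} {lam : ℤ} (hv : CurveVal W q ord lam)
    {N₀ N : ℕ → Submodule k V} {l : List ((ℕ → Submodule k K) × ℕ)} (hc : Chain W N₀ N l)
    (hN₀ : Fam W N₀) {s : ℕ} (hs0 : 0 < s) (hs : rank K N = s) {p : ℕ}
    {Φ : (Fin s → V) → K} (hΦ : IsPAlt p Φ) (e₀ : ℤ)
    (hint : ∀ (m : Fin s → ℕ) (v : Fin s → V), (∀ i, v i ∈ N (m i)) → Φ v ≠ 0 →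
      e₀ + p * (∑ i, (m i : ℤ)) * lam ≤ ord (Φ v))
    (a : Fin s → ℕ) (n : Fin s → V) (hn : ∀ i, n i ∈ N₀ (a i)) (hne : Φ n ≠ 0) :
    (p * (l.countP fun qc => decide (qc.1 = q)) : ℤ) ≤
      ord (Φ n) - p * (∑ i, (a i : ℤ)) * lam - e₀ := by
  -- the span of the entries of `v` is everything
  have hspan : ∀ (m : Fin s → ℕ) (v : Fin s → V), (∀ i, v i ∈ N (m i)) → Φ v ≠ 0 →
      ∀ c x, x ∈ N c → x ∈ Submodule.span K (Set.range v) := by
    intro m v hvm hvne c x hx
    have hli := palt_linearIndependent hΦ hvne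
    have hle : Submodule.span K (Set.range v) ≤
        Submodule.span K (⋃ m, (N m : Set V)) := by
      apply Submodule.span_mono
      rintro _ ⟨i, rfl⟩
      exact Set.mem_iUnion.2 ⟨m i, hvm i⟩
    have hrank : finrank K ↥(Submodule.span K (⋃ m, (N m : Set V))) = s := hs
    have : FiniteDimensional K ↥(Submodule.span K (⋃ m, (N m : Set V))) :=
      FiniteDimensional.of_finrank_pos (by omega)
    have heq : Submodule.span K (Set.range v) = Submodule.span K (⋃ m, (N m : Set V)) := by
      apply Submodule.eq_of_le_of_finrank_eq hle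
      rw [hrank, finrank_span_eq_card hli, Fintype.card_fin]
    rw [heq]
    exact Submodule.subset_span (Set.mem_iUnion.2 ⟨c, hx⟩)
  -- induction along the chain
  have main : ∀ (N' : ℕ → Submodule k V) (l' : List ((ℕ → Submodule k K) × ℕ)),
      Chain W N₀ N' l' → (∀ m, N' m ≤ N m) →
      ∃ (m : Fin s → ℕ) (v : Fin s → V), (∀ i, v i ∈ N' (m i)) ∧ Φ v ≠ 0 ∧
        ord (Φ v) - p * (∑ i, (m i : ℤ)) * lam +
          p * (l'.countP fun qc => decide (qc.1 = q)) ≤
        ord (Φ n) - p * (∑ i, (a i : ℤ)) * lam := by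
    intro N' l' hch
    induction hch with
    | nil => intro _; exact ⟨a, n, hn, hne, by simp⟩
    | @cons N₁ N₂ q' c x l₁ hch₁ hst ih =>
      intro hle
      obtain ⟨m, v, hvm, hvne, hval⟩ := ih fun m => (step_le hst m).trans (hle m)
      by_cases hqq : q' = q
      · subst hqq
        have hx : x ∈ Submodule.span K (Set.range v) :=
          hspan m v (fun i => hle _ (step_le hst _ (hvm i))) hvne c x
            (hle _ (step_x_mem hst))
        obtain ⟨m', v', h1', h2', h3'⟩ := le_step hv hst (chain_fam hch₁ hN₀) hΦ hvm hvne hx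
        refine ⟨m', v', h1', h2', ?_⟩
        rw [List.countP_cons]
        simp only [decide_true, if_true]
        push_cast
        linarith
      · refine ⟨m, v, fun i => step_le hst _ (hvm i), hvne, ?_⟩
        rw [List.countP_cons]
        simp only [hqq, decide_false]
        simpa using hval
  obtain ⟨m, v, hvm, hvne, hval⟩ := main N l hc fun m => le_rfl
  have := hint m v hvm hvne
  linarith

open Classical in
theorem chain_mult_ge {W : Submodule k K} (h1 : (1 : K) ∈ W) {q : ℕ → Submodule k K}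
    (hq' : HPrime W q) (hmin : HeightOne W q) {ord : K → ℤ} {lam : ℤ}
    (hv : CurveVal W q ord lam) {ω : K} {e : ℕ} (hω : ω ∈ W ^ e) (hω0 : ω ≠ 0)
    {N₀ : ℕ → Submodule k K} {l : List ((ℕ → Submodule k K) × ℕ)}
    (hc : Chain W N₀ (fun m => W ^ m) l)
    (hN₀ : ∀ m a, a ∈ N₀ (m + e) ↔ ∃ b ∈ W ^ m, a = ω * b) (hN₀' : ∀ m, m < e → N₀ m = ⊥) :
    ord ω - e * lam ≤ (l.countP fun qc => decide (qc.1 = q) : ℤ) := by
  have hfam₀ : Fam W N₀ := by
    intro m f hf v hvm
    rcases lt_or_ge m e with hm | hm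
    · rw [hN₀' m hm, Submodule.mem_bot] at hvm
      rw [hvm, smul_zero]; exact zero_mem _
    · obtain ⟨m', rfl⟩ := Nat.exists_eq_add_of_le' hm
      obtain ⟨b, hb, rfl⟩ := (hN₀ _ _).1 hvm
      have e1 : m' + e + 1 = (m' + 1) + e := by ring
      rw [e1, hN₀]
      refine ⟨f * b, ?_, ?_⟩
      · rw [pow_succ']; exact Submodule.mul_mem_mul hf hb
      · rw [smul_eq_mul]; ring
  have main : ∀ (N' : ℕ → Submodule k K) (l' : List ((ℕ → Submodule k K) × ℕ)),
      Chain W N₀ N' l' → (∀ m, N' m ≤ W ^ m) →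
      ∀ m x, x ∈ N' m → x ≠ 0 →
        ord ω - e * lam - (l'.countP fun qc => decide (qc.1 = q) : ℤ) ≤ ord x - m * lam := by
    intro N' l' hch
    induction hch with
    | nil =>
      intro _ m x hx hx0
      rcases lt_or_ge m e with hm | hm
      · rw [hN₀' m hm, Submodule.mem_bot] at hx
        exact absurd hx hx0
      · obtain ⟨m', rfl⟩ := Nat.exists_eq_add_of_le' hm
        obtain ⟨b, hb, rfl⟩ := (hN₀ _ _).1 hx
        have hb0 : b ≠ 0 := by rintro rfl; simp at hx0
        have := hv.nonneg _ b hb hb0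
        rw [hv.mul _ _ hω0 hb0]
        push_cast
        simp only [List.countP_nil]
        push_cast
        nlinarith
    | @cons N₁ N₂ q' c y l₁ hch₁ hst ih =>
      intro hle m x hx hx0
      have ih := ih fun m => (step_le hst m).trans (hle m)
      have hfam := chain_fam hch₁ hfam₀
      -- elements of `q'` times `x` lie in `N₁`
      have hmul : ∀ n, ∀ t ∈ q' n, t * x ∈ N₁ (m + n) := by
        intro n t ht
        have htW := hst.prime.le n ht
        rcases lt_or_ge m c with hm | hm
        · have := hst.low m hm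
          rw [this] at hx
          exact fam_pow hfam htW hx
        · obtain ⟨m', rfl⟩ := Nat.exists_eq_add_of_le' hm
          obtain ⟨u, hu, a, ha, rfl⟩ := (hst.mem _ _).1 hx
          have ht2 := ((hst.mem_q _ _).1 ht).2
          have h3 := fam_pow hfam ha ht2
          have h4 := fam_pow hfam htW hu
          rw [smul_eq_mul] at h3 h4
          have e1 : t * (u + a • y) = t * u + a * (t • y) := by
            rw [smul_eq_mul, smul_eq_mul]; ring
          rw [e1]
          refine add_mem h4 ?_
          have e2 : m' + c + n = n + c + m' := by ring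
          rw [e2]; exact h3
      by_cases hqq : q' = q
      · subst hqq
        obtain ⟨n, t, ht, ht0, hord⟩ := hv.unif
        have := ih _ _ (hmul n t ht) (mul_ne_zero ht0 hx0)
        rw [hv.mul _ _ ht0 hx0, hord] at this
        rw [List.countP_cons]
        simp only [decide_true, if_true]
        push_cast at this ⊢
        nlinarith
      · -- `q'` is nonzero
        have hq'0 : ∃ m, q' m ≠ ⊥ := by
          refine ⟨e, fun h => ?_⟩
          have : ω ∈ q' e := by
            rw [hst.mem_q]
            refine ⟨hω, ?_⟩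
            have hy : y ∈ W ^ c := hle c (step_x_mem hst)
            have : ω • y ∈ N₀ (c + e) := by
              rw [hN₀]; exact ⟨y, hy, by rw [smul_eq_mul]⟩
            rw [add_comm e c]
            exact chain_le hch₁ _ this
          rw [h, Submodule.mem_bot] at this
          exact hω0 this
        have hnle : ¬ ∀ m, q' m ≤ q m := fun h => hqq (hmin q' hst.prime hq'0 h)
        push Not at hnle
        obtain ⟨n, hn⟩ := hnle
        obtain ⟨t, ht, htq⟩ := Set.not_subset.1 hn
        obtain ⟨ht0, hord⟩ := ord_of_not_mem hv (hst.prime.le n ht) htq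
        have := ih _ _ (hmul n t ht) (mul_ne_zero ht0 hx0)
        rw [hv.mul _ _ ht0 hx0, hord] at this
        rw [List.countP_cons]
        simp only [hqq, decide_false]
        push_cast at this ⊢
        simp only [add_zero]
        nlinarith
  have := main _ _ hc (fun m => le_rfl) 0 1 (by simp) one_ne_zero
  rw [ord_one hv] at this
  push_cast at this
  linarith

end Pool.Agent.helper97.BG
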